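import Pool.Agent.Lib.MP_cf6741_gt.Defs
import Pool.Agent.Lib.MP_cf6741_gt.Main

open Pool.Agent.Lib.MP_cf6741_gt

/-- For `n = 10`, `r = 8`, `i = 31` the reduced homology `H̃₃₁(VR(ℤ¹⁰; 8); ℤ)` is nonzero while
`H̃₃₁(VR({0,1}¹⁰; 8); ℤ)` vanishes. -/
theorem Pool.Agent.Results.MP_cf6741_gt.Counterexample.result :
    Nontrivial (redH (n := 10) Set.univ 8 31) ∧
      ¬ Nontrivial (redH (n := 10) {x | ∀ j, ofLex x j = 0 ∨ ofLex x j = 1} 8 31) :=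
  ⟨nontrivial_lattice, not_nontrivial_iff_subsingleton.2 subsingleton_cube⟩
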